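import Pool.Agent.Helper65.Inj.Defs

/-!
R3: lifting a colouring through the contraction of a diamond.
-/

set_option autoImplicit false

namespace Pool.Agent.Helper71.Inj

open Classical Pool.Agent.Helper65.Inj

theorem exists_third (a b : Fin 3) : ∃ k : Fin 3, k ≠ a ∧ k ≠ b := by
  revert a b
  decide

theorem two_of_three {a b k m : Fin 3} (h : a ≠ b) (ha : k ≠ a) (hb : k ≠ b) (hm : m ≠ k) : m = a ∨ m = b := by
  revert a b k m
  decide

/-- the choice of the colours on the diamond -/
theorem exists_cols (c1 c2 c3 p1 p2 : Fin 3) (dr : Prop) (h1 : p1 ≠ c2) (h2 : p2 ≠ c1)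
    (h3 : ¬ dr → p1 ≠ c3 ∧ p2 ≠ c3) : ∃ yT ye zT zg w xT : Fin 3,
      (yT ≠ c1 ∧ yT ≠ c2) ∧ (zT ≠ c1 ∧ zT ≠ c2) ∧ (xT ≠ ye ∧ xT ≠ zg ∧ xT ≠ p1 ∧ xT ≠ p2) ∧ (zT ≠ ye ∧ yT ≠ zg) ∧
      (w ≠ yT ∧ w ≠ ye ∧ w ≠ zg ∧ w ≠ zT) ∧ (¬ dr → ye ≠ c3 ∧ zg ≠ c3) ∧ (w = c1 ∨ w = c2) := by
  by_cases h : c1 = c2
  · subst h
    by_cases h4 : dr ∨ c3 = c1
    · obtain ⟨a, ha, -⟩ := exists_third c1 c1
      obtain ⟨b, hb, hab⟩ := exists_third c1 a
      refine ⟨a, a, b, b, c1, c1, ⟨ha, ha⟩, ⟨hb, hb⟩, ⟨ha.symm, hb.symm, h1.symm, h2.symm⟩, ⟨hab, hab.symm⟩,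
        ⟨ha.symm, ha.symm, hb.symm, hb.symm⟩, fun hd => ?_, Or.inl rfl⟩
      rcases h4 with h4 | h4
      · exact absurd h4 hd
      · rw [h4]
        exact ⟨ha, hb⟩
    · push Not at h4
      obtain ⟨b, hb, hab⟩ := exists_third c1 c3
      exact ⟨c3, b, c3, b, c1, c1, ⟨h4.2, h4.2⟩, ⟨h4.2, h4.2⟩, ⟨hb.symm, hb.symm, h1.symm, h2.symm⟩,
        ⟨hab.symm, hab.symm⟩, ⟨h4.2.symm, hb.symm, hb.symm, h4.2.symm⟩, fun _ => ⟨hab, hab⟩, Or.inl rfl⟩
  · obtain ⟨k, hk1, hk2⟩ := exists_third c1 c2
    -- it suffices to choose the colour of the outer incidences of `y`, `z`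
    have key : ∀ e w : Fin 3, ((e = c1 ∧ w = c2) ∨ (e = c2 ∧ w = c1)) → (¬ dr → e ≠ c3) →
        (∃ t : Fin 3, t ≠ e ∧ t ≠ p1 ∧ t ≠ p2) → ∃ yT ye zT zg w xT : Fin 3,
      (yT ≠ c1 ∧ yT ≠ c2) ∧ (zT ≠ c1 ∧ zT ≠ c2) ∧ (xT ≠ ye ∧ xT ≠ zg ∧ xT ≠ p1 ∧ xT ≠ p2) ∧ (zT ≠ ye ∧ yT ≠ zg) ∧
      (w ≠ yT ∧ w ≠ ye ∧ w ≠ zg ∧ w ≠ zT) ∧ (¬ dr → ye ≠ c3 ∧ zg ≠ c3) ∧ (w = c1 ∨ w = c2) := by
      rintro e w hew he ⟨t, ht1, ht2, ht3⟩
      have hke : k ≠ e := by
        rcases hew with ⟨h5, -⟩ | ⟨h5, -⟩
        · rw [h5]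
          exact hk1
        · rw [h5]
          exact hk2
      have hkw : w ≠ k := by
        rcases hew with ⟨-, h5⟩ | ⟨-, h5⟩
        · rw [h5]
          exact hk2.symm
        · rw [h5]
          exact hk1.symm
      have hwe : w ≠ e := by
        rcases hew with ⟨h5, h6⟩ | ⟨h5, h6⟩
        · rw [h5, h6]
          exact fun h7 => h h7.symm
        · rw [h5, h6]
          exact h
      refine ⟨k, e, k, e, w, t, ⟨hk1, hk2⟩, ⟨hk1, hk2⟩, ⟨ht1, ht1, ht2, ht3⟩, ⟨hke, hke⟩, ⟨hkw, hwe, hwe, hkw⟩,
        fun hd => ⟨he hd, he hd⟩, ?_⟩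
      rcases hew with ⟨-, h5⟩ | ⟨-, h5⟩
      · exact Or.inr h5
      · exact Or.inl h5
    by_cases hd : dr
    · by_cases h5 : p1 = p2
      · obtain ⟨t, ht1, ht2⟩ := exists_third c1 p1
        exact key c1 c2 (Or.inl ⟨rfl, rfl⟩) (fun h6 => absurd hd h6) ⟨t, ht1, ht2, h5 ▸ ht2⟩
      · by_cases h6 : p1 = c1
        · obtain ⟨t, ht1, ht2⟩ := exists_third c1 p2
          exact key c1 c2 (Or.inl ⟨rfl, rfl⟩) (fun h7 => absurd hd h7) ⟨t, ht1, h6 ▸ ht1, ht2⟩
        · have h7 : p1 = k := by
            rcases two_of_three (a := c1) (b := k) (k := c2) hk1.symm (fun h8 => h h8.symm) hk2.symm h1 with h8 | h8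
            · exact absurd h8 h6
            · exact h8
          have h8 : p2 = c2 := by
            rcases two_of_three (a := c2) (b := k) (k := c1) hk2.symm h hk1.symm h2 with h9 | h9
            · exact h9
            · exact absurd (h7.trans h9.symm) h5
          obtain ⟨t, ht1, ht2⟩ := exists_third c2 p1
          exact key c2 c1 (Or.inr ⟨rfl, rfl⟩) (fun h7 => absurd hd h7) ⟨t, ht1, ht2, h8 ▸ ht1⟩
    · obtain ⟨h5, h6⟩ := h3 hd
      by_cases h7 : c1 = c3
      · refine key c2 c1 (Or.inr ⟨rfl, rfl⟩) (fun _ h8 => h (h7.trans h8.symm)) ⟨c3, ?_, h5.symm, h6.symm⟩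
        exact fun h8 => h (h7.trans h8)
      · exact key c1 c2 (Or.inl ⟨rfl, rfl⟩) (fun _ => h7) ⟨c3, fun h8 => h7 h8.symm, h5.symm, h6.symm⟩

section

variable {A B : Type} {S : RS A B}

theorem mem_pt {v : A} {b : B} : v ∈ S.pt b ↔ v ∈ S.R ∧ b ∈ S.bl v := by
  unfold RS.pt
  rw [Finset.mem_filter]

theorem bl_ne {v : A} {a b c : B} (h : (S.bl v).card = 3) (h1 : S.bl v = {a, b, c}) : a ≠ b ∧ a ≠ c ∧ b ≠ c := by
  rw [h1] at h
  refine ⟨?_, ?_, ?_⟩
  · rintro rfl
    rw [Finset.insert_eq_of_mem (Finset.mem_insert_self a _)] at h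
    have := Finset.card_le_two (a := a) (b := c)
    omega
  · rintro rfl
    rw [Finset.insert_eq_of_mem (Finset.mem_insert_of_mem (Finset.mem_singleton_self a))] at h
    have := Finset.card_le_two (a := b) (b := a)
    omega
  · rintro rfl
    rw [Finset.pair_eq_singleton] at h
    have := Finset.card_le_two (a := a) (b := b)
    omega

end

theorem r3 : ST_R3 := by
  intro A B S x y z o T b1 b2 be be' ga ga' de hC hD hcol
  obtain ⟨f', hf1, hf2⟩ := hcol
  have hT : S.Tok T := by
    unfold RS.Tok
    rw [hD.hT, Finset.card_insert_of_notMem, Finset.card_insert_of_notMem, Finset.card_singleton]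
    · simpa using hD.yz
    · simp only [Finset.mem_insert, Finset.mem_singleton, not_or]
      exact ⟨hD.xy, hD.xz⟩
  -- points
  have xT : x ∈ S.pt T := by
    rw [hD.hT]
    exact Finset.mem_insert_self _ _
  have yT : y ∈ S.pt T := by
    rw [hD.hT]
    exact Finset.mem_insert_of_mem (Finset.mem_insert_self _ _)
  have zT : z ∈ S.pt T := by
    rw [hD.hT]
    exact Finset.mem_insert_of_mem (Finset.mem_insert_of_mem (Finset.mem_singleton_self _))
  have xR := (mem_pt.mp xT).1
  have yR := (mem_pt.mp yT).1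
  have zR := (mem_pt.mp zT).1
  have oR := hD.oR
  obtain ⟨hT1, hT2, h12⟩ := bl_ne (hC.bl3 x xR) hD.hx
  obtain ⟨hTe, hTe', hee'⟩ := bl_ne (hC.bl3 y yR) hD.hy
  obtain ⟨hTg, hTg', hgg'⟩ := bl_ne (hC.bl3 z zR) hD.hz
  obtain ⟨heg, hed, hgd⟩ := bl_ne (hC.bl3 o oR) hD.ho
  have xb1 : x ∈ S.pt b1 := mem_pt.mpr ⟨xR, by rw [hD.hx]; simp⟩
  have xb2 : x ∈ S.pt b2 := mem_pt.mpr ⟨xR, by rw [hD.hx]; simp⟩
  have ode : o ∈ S.pt de := mem_pt.mpr ⟨oR, by rw [hD.ho]; simp⟩
  have obe : o ∈ S.pt be := mem_pt.mpr ⟨oR, by rw [hD.ho]; simp⟩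
  have oga : o ∈ S.pt ga := mem_pt.mpr ⟨oR, by rw [hD.ho]; simp⟩
  -- blocks of the four points
  have blx : ∀ b, x ∈ S.pt b → b = T ∨ b = b1 ∨ b = b2 := fun b hb => by
    have := (mem_pt.mp hb).2
    rw [hD.hx] at this
    simpa using this
  have bly : ∀ b, y ∈ S.pt b → b = T ∨ b = be ∨ b = be' := fun b hb => by
    have := (mem_pt.mp hb).2
    rw [hD.hy] at this
    simpa using this
  have blz : ∀ b, z ∈ S.pt b → b = T ∨ b = ga ∨ b = ga' := fun b hb => by
    have := (mem_pt.mp hb).2
    rw [hD.hz] at this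
    simpa using this
  have blo : ∀ b, o ∈ S.pt b → b = be ∨ b = ga ∨ b = de := fun b hb => by
    have := (mem_pt.mp hb).2
    rw [hD.ho] at this
    simpa using this
  have xbe : x ∉ S.pt be := by
    rw [hD.hbe]
    simp only [Finset.mem_insert, Finset.mem_singleton, not_or]
    exact ⟨hD.xy, hD.xo⟩
  have xbe' : x ∉ S.pt be' := by
    rw [hD.hbe', Finset.mem_singleton]
    exact hD.xy
  have xga : x ∉ S.pt ga := by
    rw [hD.hga]
    simp only [Finset.mem_insert, Finset.mem_singleton, not_or]
    exact ⟨hD.xz, hD.xo⟩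
  have xga' : x ∉ S.pt ga' := by
    rw [hD.hga', Finset.mem_singleton]
    exact hD.xz
  have oT : o ∉ S.pt T := by
    rw [hD.hT]
    simp only [Finset.mem_insert, Finset.mem_singleton, not_or]
    exact ⟨hD.xo.symm, hD.yo.symm, hD.zo.symm⟩
  have ne_of : ∀ {a : A} {b b' : B}, a ∈ S.pt b → a ∉ S.pt b' → b ≠ b' := by
    rintro a b b' h1 h2 rfl
    exact h2 h1
  have ntb1 : ¬ S.Tok b1 := fun h => hT1 (hC.tokd x T b1 xT xb1 hT h)
  have ntb2 : ¬ S.Tok b2 := fun h => hT2 (hC.tokd x T b2 xT xb2 hT h)
  have ybe : y ∈ S.pt be := by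
    rw [hD.hbe]
    exact Finset.mem_insert_self _ _
  have ybe' : y ∈ S.pt be' := by
    rw [hD.hbe']
    exact Finset.mem_singleton_self _
  have zga : z ∈ S.pt ga := by
    rw [hD.hga]
    exact Finset.mem_insert_self _ _
  have zga' : z ∈ S.pt ga' := by
    rw [hD.hga']
    exact Finset.mem_singleton_self _
  have ntbe : ¬ S.Tok be := fun h => hTe (hC.tokd y T be yT ybe hT h)
  have ntbe' : ¬ S.Tok be' := fun h => hTe' (hC.tokd y T be' yT ybe' hT h)
  have ntga : ¬ S.Tok ga := fun h => hTg (hC.tokd z T ga zT zga hT h)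
  have ntga' : ¬ S.Tok ga' := fun h => hTg' (hC.tokd z T ga' zT zga' hT h)
  -- the neighbours of `x` through the other two blocks
  have two : ∀ b, ¬ S.Tok b → ((S.pt b).erase x).card ≤ 1 ∨ x ∉ S.pt b := by
    intro b hb
    by_cases h : x ∈ S.pt b
    · left
      rw [Finset.card_erase_of_mem h]
      have h1 := hC.pt3 b
      have h2 : (S.pt b).card ≠ 3 := hb
      omega
    · exact Or.inr h
  have c1' : ((S.pt b1).erase x).card ≤ 1 := (two b1 ntb1).resolve_right (fun h => h xb1)
  have c2' : ((S.pt b2).erase x).card ≤ 1 := (two b2 ntb2).resolve_right (fun h => h xb2)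
  have hsub : S.R.filter (fun w => S.adj x w) ⊆ {y, z} ∪ ((S.pt b1).erase x ∪ (S.pt b2).erase x) := by
    intro u hu
    rw [Finset.mem_filter] at hu
    obtain ⟨-, hxu, b, hxb, hub, -⟩ := hu
    rcases blx b hxb with rfl | rfl | rfl
    · rw [hD.hT] at hub
      simp only [Finset.mem_insert, Finset.mem_singleton] at hub
      rcases hub with rfl | rfl | rfl
      · exact absurd rfl hxu
      · simp
      · simp
    · exact Finset.mem_union_right _ (Finset.mem_union_left _ (Finset.mem_erase.mpr ⟨hxu.symm, hub⟩))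
    · exact Finset.mem_union_right _ (Finset.mem_union_right _ (Finset.mem_erase.mpr ⟨hxu.symm, hub⟩))
  have hcard : 4 ≤ 2 + (((S.pt b1).erase x).card + ((S.pt b2).erase x).card) := by
    have h1 := Finset.card_le_card hsub
    have h2 : (S.R.filter (fun w => S.adj x w)).card = 4 := hD.hdeg
    have h3 := Finset.card_union_le ({y, z} : Finset A) ((S.pt b1).erase x ∪ (S.pt b2).erase x)
    have h4 := Finset.card_union_le ((S.pt b1).erase x) ((S.pt b2).erase x)
    have h5 : ({y, z} : Finset A).card ≤ 2 := Finset.card_le_two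
    omega
  obtain ⟨f1, hf1e⟩ := Finset.card_eq_one.mp (show ((S.pt b1).erase x).card = 1 by omega)
  obtain ⟨f2, hf2e⟩ := Finset.card_eq_one.mp (show ((S.pt b2).erase x).card = 1 by omega)
  have ptb1 : ∀ u, u ∈ S.pt b1 → u = x ∨ u = f1 := fun u hu => by
    by_cases h : u = x
    · exact Or.inl h
    · have h1 : u ∈ (S.pt b1).erase x := Finset.mem_erase.mpr ⟨h, hu⟩
      rw [hf1e, Finset.mem_singleton] at h1
      exact Or.inr h1
  have ptb2 : ∀ u, u ∈ S.pt b2 → u = x ∨ u = f2 := fun u hu => by
    by_cases h : u = x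
    · exact Or.inl h
    · have h1 : u ∈ (S.pt b2).erase x := Finset.mem_erase.mpr ⟨h, hu⟩
      rw [hf2e, Finset.mem_singleton] at h1
      exact Or.inr h1
  have f1m : f1 ≠ x ∧ f1 ∈ S.pt b1 := by
    have h1 : f1 ∈ (S.pt b1).erase x := by
      rw [hf1e]
      exact Finset.mem_singleton_self _
    exact Finset.mem_erase.mp h1
  have f2m : f2 ≠ x ∧ f2 ∈ S.pt b2 := by
    have h1 : f2 ∈ (S.pt b2).erase x := by
      rw [hf2e]
      exact Finset.mem_singleton_self _
    exact Finset.mem_erase.mp h1
  -- special blocks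
  have b1e : b1 ≠ be := ne_of xb1 xbe
  have b1e' : b1 ≠ be' := ne_of xb1 xbe'
  have b1g : b1 ≠ ga := ne_of xb1 xga
  have b1g' : b1 ≠ ga' := ne_of xb1 xga'
  have b1d : b1 ≠ de := ne_of xb1 hD.hdx
  have b2e : b2 ≠ be := ne_of xb2 xbe
  have b2e' : b2 ≠ be' := ne_of xb2 xbe'
  have b2g : b2 ≠ ga := ne_of xb2 xga
  have b2g' : b2 ≠ ga' := ne_of xb2 xga'
  have b2d : b2 ≠ de := ne_of xb2 hD.hdx
  have Td : T ≠ de := ne_of xT hD.hdx
  have ybd : y ∉ S.pt de := by
    intro h
    rcases bly de h with h1 | h1 | h1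
    · exact Td h1.symm
    · exact hed h1.symm
    · rw [h1, hD.hbe', Finset.mem_singleton] at ode
      exact hD.yo ode.symm
  have zbd : z ∉ S.pt de := by
    intro h
    rcases blz de h with h1 | h1 | h1
    · exact Td h1.symm
    · exact hgd h1.symm
    · rw [h1, hD.hga', Finset.mem_singleton] at ode
      exact hD.zo ode.symm
  have de' : de ≠ be' := fun h => ybd (h ▸ ybe')
  have dg' : de ≠ ga' := fun h => zbd (h ▸ zga')
  -- other points
  obtain ⟨Oth, hOth⟩ : ∃ Oth : A → Prop, Oth = fun v => v ≠ x ∧ v ≠ y ∧ v ≠ z ∧ v ≠ o := ⟨_, rfl⟩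
  have oth : ∀ {v : A}, v ≠ x → v ≠ y → v ≠ z → v ≠ o → Oth v := by
    intro v h1 h2 h3 h4
    rw [hOth]
    exact ⟨h1, h2, h3, h4⟩
  have othx : ∀ {v : A}, Oth v → v ≠ x := by
    intro v h
    rw [hOth] at h
    exact h.1
  have othy : ∀ {v : A}, Oth v → v ≠ y := by
    intro v h
    rw [hOth] at h
    exact h.2.1
  have othz : ∀ {v : A}, Oth v → v ≠ z := by
    intro v h
    rw [hOth] at h
    exact h.2.2.1
  have otho : ∀ {v : A}, Oth v → v ≠ o := by
    intro v h
    rw [hOth] at h
    exact h.2.2.2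
  have of1 : Oth f1 := by
    refine oth f1m.1 ?_ ?_ ?_
    · rintro rfl
      rcases bly b1 f1m.2 with h | h | h
      · exact hT1 h.symm
      · exact b1e h
      · exact b1e' h
    · rintro rfl
      rcases blz b1 f1m.2 with h | h | h
      · exact hT1 h.symm
      · exact b1g h
      · exact b1g' h
    · rintro rfl
      rcases blo b1 f1m.2 with h | h | h
      · exact b1e h
      · exact b1g h
      · exact b1d h
  have of2 : Oth f2 := by
    refine oth f2m.1 ?_ ?_ ?_
    · rintro rfl
      rcases bly b2 f2m.2 with h | h | h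
      · exact hT2 h.symm
      · exact b2e h
      · exact b2e' h
    · rintro rfl
      rcases blz b2 f2m.2 with h | h | h
      · exact hT2 h.symm
      · exact b2g h
      · exact b2g' h
    · rintro rfl
      rcases blo b2 f2m.2 with h | h | h
      · exact b2e h
      · exact b2g h
      · exact b2d h
  -- blocks of other points
  have nT : ∀ {v : A} {b : B}, Oth v → v ∈ S.pt b → b ≠ T ∧ b ≠ be ∧ b ≠ be' ∧ b ≠ ga ∧ b ≠ ga' := by
    intro v b hv hb
    refine ⟨?_, ?_, ?_, ?_, ?_⟩
    · rintro rfl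
      rw [hD.hT] at hb
      simp only [Finset.mem_insert, Finset.mem_singleton] at hb
      rcases hb with h | h | h
      · exact othx hv h
      · exact othy hv h
      · exact othz hv h
    · rintro rfl
      rw [hD.hbe] at hb
      simp only [Finset.mem_insert, Finset.mem_singleton] at hb
      rcases hb with h | h
      · exact othy hv h
      · exact otho hv h
    · rintro rfl
      rw [hD.hbe', Finset.mem_singleton] at hb
      exact othy hv hb
    · rintro rfl
      rw [hD.hga] at hb
      simp only [Finset.mem_insert, Finset.mem_singleton] at hb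
      rcases hb with h | h
      · exact othz hv h
      · exact otho hv h
    · rintro rfl
      rw [hD.hga', Finset.mem_singleton] at hb
      exact othz hv hb
  -- the contracted structure
  obtain ⟨S', hS'⟩ : ∃ S', S' = S.con x y z o b1 b2 de := ⟨_, rfl⟩
  rw [← hS'] at hf1 hf2
  have mO : ∀ {v : A} {b : B}, Oth v → (v ∈ S'.pt b ↔ v ∈ S.pt b) := by
    intro v b hv
    rw [mem_pt, mem_pt, hS']
    unfold RS.con
    simp only [Finset.mem_sdiff, Finset.mem_insert, Finset.mem_singleton, not_or]
    rw [if_neg (othx hv)]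
    constructor
    · rintro ⟨⟨h1, -⟩, h2⟩
      exact ⟨h1, h2⟩
    · rintro ⟨h1, h2⟩
      exact ⟨⟨h1, othy hv, othz hv, otho hv⟩, h2⟩
  have mx : ∀ {b : B}, x ∈ S'.pt b ↔ b = b1 ∨ b = b2 ∨ b = de := by
    intro b
    rw [mem_pt, hS']
    unfold RS.con
    simp only [Finset.mem_sdiff, Finset.mem_insert, Finset.mem_singleton, not_or, if_true]
    exact ⟨fun h => h.2, fun h => ⟨⟨xR, hD.xy, hD.xz, hD.xo⟩, h⟩⟩
  have my : ∀ {b : B} {v : A}, v = y ∨ v = z ∨ v = o → v ∉ S'.pt b := by
    intro b v hv h
    rw [mem_pt, hS'] at h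
    unfold RS.con at h
    simp only [Finset.mem_sdiff, Finset.mem_insert, Finset.mem_singleton] at h
    exact h.1.2 hv
  have cases4 : ∀ v : A, v = x ∨ v = y ∨ v = z ∨ v = o ∨ Oth v := by
    intro v
    by_cases h1 : v = x
    · exact Or.inl h1
    by_cases h2 : v = y
    · exact Or.inr (Or.inl h2)
    by_cases h3 : v = z
    · exact Or.inr (Or.inr (Or.inl h3))
    by_cases h4 : v = o
    · exact Or.inr (Or.inr (Or.inr (Or.inl h4)))
    · exact Or.inr (Or.inr (Or.inr (Or.inr (oth h1 h2 h3 h4))))
  -- tokens of the contracted structure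
  have ptd : S'.pt de = insert x ((S.pt de).erase o) := by
    ext v
    rw [Finset.mem_insert, Finset.mem_erase]
    rcases cases4 v with rfl | rfl | rfl | rfl | hv
    · rw [mx]
      exact ⟨fun _ => Or.inl rfl, fun _ => Or.inr (Or.inr rfl)⟩
    · constructor
      · intro h
        exact absurd h (my (Or.inl rfl))
      · rintro (h | ⟨-, h⟩)
        · exact absurd h.symm hD.xy
        · exact absurd h ybd
    · constructor
      · intro h
        exact absurd h (my (Or.inr (Or.inl rfl)))
      · rintro (h | ⟨-, h⟩)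
        · exact absurd h.symm hD.xz
        · exact absurd h zbd
    · constructor
      · intro h
        exact absurd h (my (Or.inr (Or.inr rfl)))
      · rintro (h | ⟨h, -⟩)
        · exact absurd h.symm hD.xo
        · exact absurd rfl h
    · rw [mO hv]
      constructor
      · exact fun h => Or.inr ⟨otho hv, h⟩
      · rintro (h | ⟨-, h⟩)
        · exact absurd h (othx hv)
        · exact h
  have tokde : S'.Tok de ↔ S.Tok de := by
    unfold RS.Tok
    rw [ptd, Finset.card_insert_of_notMem, Finset.card_erase_of_mem ode]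
    · have h1 : 0 < (S.pt de).card := Finset.card_pos.mpr ⟨o, ode⟩
      omega
    · rw [Finset.mem_erase]
      exact fun h => hD.hdx h.2
  have pto : ∀ {v : A} {b : B}, Oth v → v ∈ S.pt b → b ≠ de → S'.pt b = S.pt b := by
    intro v b hv hb hbd
    obtain ⟨n1, n2, n3, n4, n5⟩ := nT hv hb
    ext u
    rcases cases4 u with rfl | rfl | rfl | rfl | hu
    · rw [mx]
      constructor
      · rintro (rfl | rfl | h)
        · exact xb1
        · exact xb2
        · exact absurd h hbd
      · intro h
        rcases blx b h with h1 | h1 | h1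
        · exact absurd h1 n1
        · exact Or.inl h1
        · exact Or.inr (Or.inl h1)
    · constructor
      · intro h
        exact absurd h (my (Or.inl rfl))
      · intro h
        rcases bly b h with h1 | h1 | h1
        · exact absurd h1 n1
        · exact absurd h1 n2
        · exact absurd h1 n3
    · constructor
      · intro h
        exact absurd h (my (Or.inr (Or.inl rfl)))
      · intro h
        rcases blz b h with h1 | h1 | h1
        · exact absurd h1 n1
        · exact absurd h1 n4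
        · exact absurd h1 n5
    · constructor
      · intro h
        exact absurd h (my (Or.inr (Or.inr rfl)))
      · intro h
        rcases blo b h with h1 | h1 | h1
        · exact absurd h1 n2
        · exact absurd h1 n4
        · exact absurd h1 hbd
    · exact mO hu
  have toko : ∀ {v : A} {b : B}, Oth v → v ∈ S.pt b → (S'.Tok b ↔ S.Tok b) := by
    intro v b hv hb
    by_cases hbd : b = de
    · rw [hbd]
      exact tokde
    · unfold RS.Tok
      rw [pto hv hb hbd]
  have Dn : ∀ {v : A}, v ≠ x → (v ∈ S'.D ↔ v ∈ S.D) := by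
    intro v hv
    rw [hS']
    unfold RS.con
    simp only
    split_ifs with h
    · rw [Finset.mem_insert]
      exact ⟨fun h1 => h1.resolve_left hv, Or.inr⟩
    · rfl
  have Dx : x ∈ S'.D ↔ o ∈ S.D := by
    rw [hS']
    unfold RS.con
    simp only
    split_ifs with h
    · exact ⟨fun _ => h, fun _ => Finset.mem_insert_self _ _⟩
    · exact ⟨fun h1 => absurd h1 hD.hD.1, fun h1 => absurd h1 h⟩
  have dro : ∀ {v : A} {b : B}, Oth v → v ∈ S.pt b → (S'.drp v b ↔ S.drp v b) := by
    intro v b hv hb
    unfold RS.drp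
    rw [Dn (othx hv), toko hv hb]
  have drx1 : ¬ S'.drp x b1 := by
    intro h
    exact ntb1 ((toko of1 f1m.2).mp h.2)
  have drx2 : ¬ S'.drp x b2 := by
    intro h
    exact ntb2 ((toko of2 f2m.2).mp h.2)
  have drxd : S'.drp x de ↔ S.drp o de := by
    unfold RS.drp
    rw [Dx, tokde]
  have xm1 : x ∈ S'.pt b1 := mx.mpr (Or.inl rfl)
  have xm2 : x ∈ S'.pt b2 := mx.mpr (Or.inr (Or.inl rfl))
  have xmd : x ∈ S'.pt de := mx.mpr (Or.inr (Or.inr rfl))
  have f1' : f1 ∈ S'.pt b1 := (mO of1).mpr f1m.2
  have f2' : f2 ∈ S'.pt b2 := (mO of2).mpr f2m.2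
  have nd1 : ¬ S'.drp f1 b1 := fun h => ntb1 ((dro of1 f1m.2).mp h).2
  have nd2 : ¬ S'.drp f2 b2 := fun h => ntb2 ((dro of2 f2m.2).mp h).2
  -- the constraints on the colours
  have k1 : f' f1 b1 ≠ f' x b2 := hf1 f1 x b1 b2 f1m.1 h12 f1' xm1 xm2 nd1 drx2
  have k2 : f' f2 b2 ≠ f' x b1 := hf1 f2 x b2 b1 f2m.1 h12.symm f2' xm2 xm1 nd2 drx1
  have k3 : ¬ S.drp o de → f' f1 b1 ≠ f' x de ∧ f' f2 b2 ≠ f' x de := by
    intro h
    have h1 : ¬ S'.drp x de := fun h2 => h (drxd.mp h2)
    exact ⟨hf1 f1 x b1 de f1m.1 b1d f1' xm1 xmd nd1 h1, hf1 f2 x b2 de f2m.1 b2d f2' xm2 xmd nd2 h1⟩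
  obtain ⟨cyT, cye, czT, czg, cw, cxT, ⟨q1, q2⟩, ⟨q3, q4⟩, ⟨q5, q6, q7, q8⟩, ⟨q9, q10⟩, ⟨q11, q12, q13, q14⟩, q15, q16⟩ :=
    exists_cols (f' x b1) (f' x b2) (f' x de) (f' f1 b1) (f' f2 b2) (S.drp o de) k1 k2 k3
  obtain ⟨f, hf⟩ : ∃ f : A → B → Fin 3, f = fun v b =>
      if v = x then (if b = b1 then f' x b1 else if b = b2 then f' x b2 else cxT)
      else if v = y then (if b = T then cyT else cye)
      else if v = z then (if b = T then czT else czg)
      else if v = o then (if b = de then f' x de else cw) else f' v b := ⟨_, rfl⟩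
  have fx1 : f x b1 = f' x b1 := by
    rw [hf]
    simp
  have fx2 : f x b2 = f' x b2 := by
    rw [hf]
    simp [h12.symm]
  have fxT : f x T = cxT := by
    rw [hf]
    simp [hT1, hT2]
  have fyT : f y T = cyT := by
    rw [hf]
    simp [hD.xy.symm]
  have fye : ∀ {b : B}, b ≠ T → f y b = cye := by
    intro b hb
    rw [hf]
    simp [hD.xy.symm, hb]
  have fzT : f z T = czT := by
    rw [hf]
    simp [hD.xz.symm, hD.yz.symm]
  have fzg : ∀ {b : B}, b ≠ T → f z b = czg := by
    intro b hb
    rw [hf]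
    simp [hD.xz.symm, hD.yz.symm, hb]
  have fod : f o de = f' x de := by
    rw [hf]
    simp [hD.xo.symm, hD.yo.symm, hD.zo.symm]
  have fow : ∀ {b : B}, b ≠ de → f o b = cw := by
    intro b hb
    rw [hf]
    simp [hD.xo.symm, hD.yo.symm, hD.zo.symm, hb]
  have fO : ∀ {v : A} {b : B}, Oth v → f v b = f' v b := by
    intro v b hv
    rw [hf]
    simp only
    rw [if_neg (othx hv), if_neg (othy hv), if_neg (othz hv), if_neg (otho hv)]
  refine ⟨f, ?_, ?_⟩
  · intro u v b b' huv hbb hu hv hv' hdu hdv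
    rcases cases4 v with rfl | rfl | rfl | rfl | hvO
    · -- v = x
      rcases blx b hv with rfl | rfl | rfl
      · -- b = T
        have hu' : u = y ∨ u = z := by
          rw [hD.hT] at hu
          simp only [Finset.mem_insert, Finset.mem_singleton] at hu
          rcases hu with h | h | h
          · exact absurd h huv
          · exact Or.inl h
          · exact Or.inr h
        rcases blx b' hv' with h | rfl | rfl
        · exact absurd h.symm hbb
        · rw [fx1]
          rcases hu' with rfl | rfl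
          · rw [fyT]
            exact q1
          · rw [fzT]
            exact q3
        · rw [fx2]
          rcases hu' with rfl | rfl
          · rw [fyT]
            exact q2
          · rw [fzT]
            exact q4
      · -- b = b1
        obtain rfl : u = f1 := (ptb1 u hu).resolve_left huv
        rw [fO of1]
        rcases blx b' hv' with rfl | h | rfl
        · rw [fxT]
          exact q7.symm
        · exact absurd h.symm hbb
        · rw [fx2]
          exact k1
      · -- b = b2
        obtain rfl : u = f2 := (ptb2 u hu).resolve_left huv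
        rw [fO of2]
        rcases blx b' hv' with rfl | rfl | h
        · rw [fxT]
          exact q8.symm
        · rw [fx1]
          exact k2
        · exact absurd h.symm hbb
    · -- v = y
      rcases bly b hv with rfl | rfl | rfl
      · have hb' : b' ≠ b := fun h => hbb h.symm
        rw [fye hb']
        rw [hD.hT] at hu
        simp only [Finset.mem_insert, Finset.mem_singleton] at hu
        rcases hu with rfl | h | rfl
        · rw [fxT]
          exact q5
        · exact absurd h huv
        · rw [fzT]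
          exact q9
      · rw [hD.hbe] at hu
        simp only [Finset.mem_insert, Finset.mem_singleton] at hu
        obtain rfl : u = o := hu.resolve_left huv
        rw [fow hed]
        rcases bly b' hv' with rfl | h | rfl
        · rw [fyT]
          exact q11
        · exact absurd h.symm hbb
        · rw [fye hTe'.symm]
          exact q12
      · rw [hD.hbe', Finset.mem_singleton] at hu
        exact absurd hu huv
    · -- v = z
      rcases blz b hv with rfl | rfl | rfl
      · have hb' : b' ≠ b := fun h => hbb h.symm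
        rw [fzg hb']
        rw [hD.hT] at hu
        simp only [Finset.mem_insert, Finset.mem_singleton] at hu
        rcases hu with rfl | rfl | h
        · rw [fxT]
          exact q6
        · rw [fyT]
          exact q10
        · exact absurd h huv
      · rw [hD.hga] at hu
        simp only [Finset.mem_insert, Finset.mem_singleton] at hu
        obtain rfl : u = o := hu.resolve_left huv
        rw [fow hgd]
        rcases blz b' hv' with rfl | h | rfl
        · rw [fzT]
          exact q14
        · exact absurd h.symm hbb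
        · rw [fzg hTg'.symm]
          exact q13
      · rw [hD.hga', Finset.mem_singleton] at hu
        exact absurd hu huv
    · -- v = o
      rcases blo b hv with rfl | rfl | rfl
      · rw [hD.hbe] at hu
        simp only [Finset.mem_insert, Finset.mem_singleton] at hu
        obtain rfl : u = y := hu.resolve_right huv
        rw [fye hTe.symm]
        rcases blo b' hv' with h | rfl | rfl
        · exact absurd h.symm hbb
        · rw [fow hgd]
          exact q12.symm
        · rw [fod]
          exact (q15 hdv).1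
      · rw [hD.hga] at hu
        simp only [Finset.mem_insert, Finset.mem_singleton] at hu
        obtain rfl : u = z := hu.resolve_right huv
        rw [fzg hTg.symm]
        rcases blo b' hv' with rfl | h | rfl
        · rw [fow hed]
          exact q13.symm
        · exact absurd h.symm hbb
        · rw [fod]
          exact (q15 hdv).2
      · have huO : Oth u := by
          refine oth ?_ ?_ ?_ huv
          · rintro rfl
            exact hD.hdx hu
          · rintro rfl
            exact ybd hu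
          · rintro rfl
            exact zbd hu
        have hb' : b' ≠ b := fun h => hbb h.symm
        rw [fO huO, fow hb']
        have hu1 : u ∈ S'.pt b := (mO huO).mpr hu
        have hu2 : ¬ S'.drp u b := fun h => hdu ((dro huO hu).mp h)
        rcases q16 with h | h
        · rw [h]
          exact hf1 u x b b1 (othx huO) b1d.symm hu1 xmd xm1 hu2 drx1
        · rw [h]
          exact hf1 u x b b2 (othx huO) b2d.symm hu1 xmd xm2 hu2 drx2
    · -- other points
      have hv1 : v ∈ S'.pt b := (mO hvO).mpr hv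
      have hv2 : v ∈ S'.pt b' := (mO hvO).mpr hv'
      have hv3 : ¬ S'.drp v b' := fun h => hdv ((dro hvO hv').mp h)
      obtain ⟨n1, n2, n3, n4, n5⟩ := nT hvO hv
      rw [fO (b := b') hvO]
      rcases cases4 u with rfl | rfl | rfl | rfl | huO
      · rcases blx b hu with h | rfl | rfl
        · exact absurd h n1
        · rw [fx1]
          exact hf1 u v b b' huv hbb xm1 hv1 hv2 drx1 hv3
        · rw [fx2]
          exact hf1 u v b b' huv hbb xm2 hv1 hv2 drx2 hv3
      · rcases bly b hu with h | h | h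
        · exact absurd h n1
        · exact absurd h n2
        · exact absurd h n3
      · rcases blz b hu with h | h | h
        · exact absurd h n1
        · exact absurd h n4
        · exact absurd h n5
      · rcases blo b hu with h | h | rfl
        · exact absurd h n2
        · exact absurd h n4
        · rw [fod]
          exact hf1 x v b b' (fun h => othx hvO h.symm) hbb xmd hv1 hv2 (fun h => hdu (drxd.mp h)) hv3
      · rw [fO huO]
        exact hf1 u v b b' huv hbb ((mO huO).mpr hu) hv1 hv2 (fun h => hdu ((dro huO hu).mp h)) hv3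
  · intro v c hc b b' hb hb' ht ht'
    have hvc : v ∈ S.pt c := by
      rw [hc]
      exact Finset.mem_singleton_self _
    rcases cases4 v with rfl | rfl | rfl | rfl | hvO
    · exfalso
      rcases blx c hvc with rfl | rfl | rfl
      · have h1 : y ∈ S.pt c := yT
        rw [hc, Finset.mem_singleton] at h1
        exact hD.xy h1.symm
      · have h1 := f1m.2
        rw [hc, Finset.mem_singleton] at h1
        exact f1m.1 h1
      · have h1 := f2m.2
        rw [hc, Finset.mem_singleton] at h1
        exact f2m.1 h1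
    · have h1 : b ≠ T := fun h => ht (h ▸ hT)
      have h2 : b' ≠ T := fun h => ht' (h ▸ hT)
      rw [fye h1, fye h2]
    · have h1 : b ≠ T := fun h => ht (h ▸ hT)
      have h2 : b' ≠ T := fun h => ht' (h ▸ hT)
      rw [fzg h1, fzg h2]
    · have hcd : c = de := by
        rcases blo c hvc with rfl | rfl | h
        · rw [hc, Finset.mem_singleton] at ybe
          exact absurd ybe hD.yo
        · rw [hc, Finset.mem_singleton] at zga
          exact absurd zga hD.zo
        · exact h
      have h1 : S'.pt de = {x} := by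
        rw [ptd, ← hcd, hc, Finset.erase_singleton]
        rfl
      have ntd : ¬ S'.Tok de := by
        intro h
        unfold RS.Tok at h
        rw [h1, Finset.card_singleton] at h
        omega
      have nt1 : ¬ S'.Tok b1 := fun h => ntb1 ((toko of1 f1m.2).mp h)
      have nt2 : ¬ S'.Tok b2 := fun h => ntb2 ((toko of2 f2m.2).mp h)
      have e1 : f' x b1 = f' x de := hf2 x de h1 b1 de xm1 xmd nt1 ntd
      have e2 : f' x b2 = f' x de := hf2 x de h1 b2 de xm2 xmd nt2 ntd
      have ew : cw = f' x de := by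
        rcases q16 with h | h
        · rw [h, e1]
        · rw [h, e2]
      have all : ∀ b : B, f v b = f' x de := by
        intro b
        by_cases h : b = de
        · rw [h, fod]
        · rw [fow h, ew]
      rw [all, all]
    · have hcd : c ≠ de := by
        rintro rfl
        rw [hc, Finset.mem_singleton] at ode
        exact otho hvO ode.symm
      rw [fO hvO, fO hvO]
      refine hf2 v c ?_ b b' ((mO hvO).mpr hb) ((mO hvO).mpr hb') (fun h => ht ((toko hvO hb).mp h))
        (fun h => ht' ((toko hvO hb').mp h))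
      rw [pto hvO hvc hcd, hc]

end Pool.Agent.Helper71.Inj
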