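import Mathlib
import Pool.Agent.Helper65.Inj.JDefs

/-! J part of the injective colouring: exchanges W1, W2, W4, W5. -/

namespace Pool.Agent.Helper71.Inj

open Classical Pool.Agent.Helper65.Inj Pool.Agent.Helper65.Inj.Cub

set_option linter.unusedSectionVars false
set_option linter.unusedVariables false

variable {A B : Type} {H : Cub A B} {J : Finset A}

theorem rc_q {b : B} {u v : A} (h : H.Q J b u v) : H.Rc J u v := Relation.ReflTransGen.single ⟨b, h⟩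

theorem rc_symm {u v : A} (h : H.Rc J u v) : H.Rc J v u := by
  induction h with
  | refl => exact Relation.ReflTransGen.refl
  | tail _ h ih =>
    obtain ⟨b, hb⟩ := h
    exact Relation.ReflTransGen.head ⟨b, hb.symm⟩ ih

theorem rc_trans {u v w : A} (h : H.Rc J u v) (h' : H.Rc J v w) : H.Rc J u w := Relation.ReflTransGen.trans h h'

theorem st_W1 : ST_W1 := by
  intro A B _ _ H J w x y e1 e2 p1 p2 T T1 D1 D2 G1 G2 F1 F2 hO hwJ hwT hwD1 hwD2 hPy hnty hy1 hy2 he hLP l1 l2 hx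
  have hnt1 := hx.nt1 hO
  have hnt2 := hx.nt2 hO
  have hxJ := hx.nJ
  have hxall : ∀ r, x ∈ H.pt r → r = T ∨ r = F1 ∨ r = F2 := fun r hr => hx.all hr
  have h1all : ∀ r, e1 ∈ H.pt r → r = D1 ∨ r = G1 ∨ r = F1 := fun r hr => l1.all hr
  have h2all : ∀ r, e2 ∈ H.pt r → r = D2 ∨ r = G2 ∨ r = F2 := fun r hr => l2.all hr
  have hTF1 := hx.Tb
  have hTF2 := hx.Tc
  obtain ⟨⟨s, hs⟩, hI⟩ := hO.1
  obtain ⟨hxT, hxF1, hxF2, hF12, hUT, -, -⟩ := hx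
  have g1 := l1.bD
  have g2 := l1.FD
  have g3 := l2.bD
  have g4 := l2.FD
  obtain ⟨a1, a2, a3, a4⟩ := l1
  obtain ⟨b1, b2, b3, b4⟩ := l2
  have hT1D1 : T1 ≠ D1 := by
    rintro rfl
    exact hy1 (a1.2.2 y hPy.1 hPy.2.1)
  have hT1D2 : T1 ≠ D2 := by
    rintro rfl
    exact hy2 (b1.2.2 y hPy.1 hPy.2.1)
  have hD12 : D1 ≠ D2 := by
    rintro rfl
    exact he (b1.2.2 e1 a1.1 a1.2.1)
  have hwall : ∀ r, w ∈ H.pt r → r = T1 ∨ r = D1 ∨ r = D2 := fun r hr =>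
    bl_cases hwT hwD1 hwD2 hT1D1 hT1D2 hD12 hr
  have hxw : x ≠ w := by
    rintro rfl
    rcases hwall T hxT with rfl | rfl | rfl
    · exact hUT.not_P hPy
    · exact hUT.not_P a1
    · exact hUT.not_P b1
  have hp1 : p1 ≠ e2 := by
    rintro rfl
    exact hLP G1 ⟨a3.2.1, a3.2.2.1⟩
  have hp2 : p2 ≠ e1 := by
    rintro rfl
    exact hLP G2 ⟨b3.2.2.1, b3.2.1⟩
  have hEx : Ex H J {x, w} {e1, e2} ∅ {T} (fun a => if a = w then !(s y) else s a) := by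
    refine ⟨by grind, by unfold P at *; grind, ?_, ?_, ?_, ?_⟩
    · unfold U P Q at *; grind
    · exact hc_s hs (by grind) (by grind) (by grind)
    · unfold U P Q at *; grind
    · unfold U at *; grind
  refine hEx.contra hO ?_
  have c1 : ({x, w} : Finset A).card = 2 := Finset.card_pair hxw
  have c2 : ({e1, e2} : Finset A).card = 2 := Finset.card_pair he
  simp [c1, c2]

theorem st_W2 : ST_W2 := by
  intro A B _ _ H J w x y e1 e2 p1 p2 T T1 D1 D2 G1 G2 F1 F2 hO hwJ hwT hwD1 hwD2 hPy hTwo hR1 hR2 he hLP l1 l2 hx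
  have hnt1 := hx.nt1 hO
  have hnt2 := hx.nt2 hO
  have hxJ := hx.nJ
  have hxall : ∀ r, x ∈ H.pt r → r = T ∨ r = D1 ∨ r = F2 := fun r hr => hx.all hr
  have h1all : ∀ r, e1 ∈ H.pt r → r = D1 ∨ r = G1 ∨ r = F1 := fun r hr => l1.all hr
  have h2all : ∀ r, e2 ∈ H.pt r → r = D2 ∨ r = G2 ∨ r = F2 := fun r hr => l2.all hr
  have hTD1 := hx.Tb
  have hTF2 := hx.Tc
  obtain ⟨⟨s, hs⟩, hI⟩ := hO.1
  obtain ⟨hxT, hxD1, hxF2, hDF, hUT, -, -⟩ := hx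
  have g1 := l1.bD
  have g2 := l1.FD
  have g3 := l2.bD
  have g4 := l2.FD
  obtain ⟨a1, a2, a3, a4⟩ := l1
  obtain ⟨b1, b2, b3, b4⟩ := l2
  obtain ⟨Y1, Y2, y1, y2, hY12, q1, q2⟩ := hTwo
  have hnty := q1.nt hI
  have hy1 : y ≠ e1 := by
    rintro rfl
    exact hR1 Relation.ReflTransGen.refl
  have hy2 : y ≠ e2 := by
    rintro rfl
    exact hR1 (rc_symm hR2)
  have hT1D1 : T1 ≠ D1 := by
    rintro rfl
    exact hy1 (a1.2.2 y hPy.1 hPy.2.1)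
  have hT1D2 : T1 ≠ D2 := by
    rintro rfl
    exact hy2 (b1.2.2 y hPy.1 hPy.2.1)
  have hT1F2 : T1 ≠ F2 := by
    rintro rfl
    exact hy2 (b2.2.2 y hPy.1 hPy.2.1)
  have hD12 : D1 ≠ D2 := by
    rintro rfl
    exact he (b1.2.2 e1 a1.1 a1.2.1)
  have hwall : ∀ r, w ∈ H.pt r → r = T1 ∨ r = D1 ∨ r = D2 := fun r hr =>
    bl_cases hwT hwD1 hwD2 hT1D1 hT1D2 hD12 hr
  have hxw : x ≠ w := by
    rintro rfl
    rcases hwall T hxT with rfl | rfl | rfl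
    · exact hUT.not_P hPy
    · exact hUT.not_P a1
    · exact hUT.not_P b1
  have hp1 : p1 ≠ e2 := by
    rintro rfl
    exact hLP G1 ⟨a3.2.1, a3.2.2.1⟩
  have hp2 : p2 ≠ e1 := by
    rintro rfl
    exact hLP G2 ⟨b3.2.2.1, b3.2.1⟩
  have hp1y : p1 ≠ y := by
    rintro rfl
    exact hR1 (rc_symm (rc_q a3))
  have hp2y : p2 ≠ y := by
    rintro rfl
    exact hR1 (rc_symm (rc_trans hR2 (rc_q b3)))
  have hT1Y1 : T1 ≠ Y1 := by
    rintro rfl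
    exact q1.1 (hPy.2.2 y1 q1.2.2.1 q1.2.2.2.2.1).symm
  have hT1Y2 : T1 ≠ Y2 := by
    rintro rfl
    exact q2.1 (hPy.2.2 y2 q2.2.2.1 q2.2.2.2.2.1).symm
  have hyall : ∀ r, y ∈ H.pt r → r = T1 ∨ r = Y1 ∨ r = Y2 := fun r hr =>
    bl_cases hPy.1 q1.2.1 q2.2.1 hT1Y1 hT1Y2 hY12 hr
  have n1 : y1 ≠ e1 := by
    rintro rfl
    exact hR1 (rc_q q1)
  have n2 : y2 ≠ e1 := by
    rintro rfl
    exact hR1 (rc_q q2)
  have n3 : y1 ≠ e2 := by
    rintro rfl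
    exact hR1 (rc_trans (rc_q q1) (rc_symm hR2))
  have n4 : y2 ≠ e2 := by
    rintro rfl
    exact hR1 (rc_trans (rc_q q2) (rc_symm hR2))
  have n5 : y1 ≠ y := q1.1.symm
  have n6 : y2 ≠ y := q2.1.symm
  have e1J := a1.2.1
  have e2J := b1.2.1
  have yJ := hPy.2.1
  have hxe1 : x ≠ e1 := fun h => hxJ (h ▸ e1J)
  have hwe1 : w ≠ e1 := fun h => hwJ (h ▸ e1J)
  have hD1pt : ∀ r, r ∈ H.pt D1 → r = x ∨ r = w ∨ r = e1 := fun r hr =>
    pt_cases hxD1 hwD1 a1.1 hxw hxe1 hwe1 hr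
  have hEx : Ex H J {x, w} {e1, e2, y} {F1} {T} (fun a => if a = w then true else if a = x then false else s a) := by
    refine ⟨by grind, by grind, ?_, ?_, ?_, ?_⟩
    · unfold U P Q at *; grind
    · exact hc_s hs (by grind) (by grind) (by grind)
    · unfold U P Q at *; grind
    · unfold U at *; grind
  refine hEx.contra hO ?_
  have c1 : ({x, w} : Finset A).card = 2 := Finset.card_pair hxw
  have c2 : ({e1, e2, y} : Finset A).card = 3 := by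
    rw [Finset.card_eq_three]
    exact ⟨e1, e2, y, he, hy1.symm, hy2.symm, rfl⟩
  simp [c1, c2]

theorem st_W4 : ST_W4 := by
  intro A B _ _ H J w x y e1 e2 T T1 D1 D2 G F1 F2 hO hwJ hwT hwD1 hwD2 hPy hTwo hR1 l1 l2 hx
  have hnt1 := hx.nt1 hO
  have hnt2 := hx.nt2 hO
  have he := hx.ne hO
  have hxJ := hx.nJ
  have hxall : ∀ r, x ∈ H.pt r → r = T ∨ r = F1 ∨ r = F2 := fun r hr => hx.all hr
  have h1all : ∀ r, e1 ∈ H.pt r → r = D1 ∨ r = G ∨ r = F1 := fun r hr => l1.all hr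
  have h2all : ∀ r, e2 ∈ H.pt r → r = D2 ∨ r = G ∨ r = F2 := fun r hr => l2.all hr
  have hTF1 := hx.Tb
  have hTF2 := hx.Tc
  obtain ⟨⟨s, hs⟩, hI⟩ := hO.1
  obtain ⟨hxT, hxF1, hxF2, hF12, hUT, -, -⟩ := hx
  have g1 := l1.bD
  have g2 := l1.FD
  have g3 := l2.bD
  have g4 := l2.FD
  obtain ⟨a1, a2, a3, a4⟩ := l1
  obtain ⟨b1, b2, b3, b4⟩ := l2
  obtain ⟨Y1, Y2, y1, y2, hY12, q1, q2⟩ := hTwo
  have hnty := q1.nt hI
  have hR2 : H.Rc J e1 e2 := rc_q a3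
  have hy1 : y ≠ e1 := by
    rintro rfl
    exact hR1 Relation.ReflTransGen.refl
  have hy2 : y ≠ e2 := by
    rintro rfl
    exact hR1 (rc_symm hR2)
  have hT1D1 : T1 ≠ D1 := by
    rintro rfl
    exact hy1 (a1.2.2 y hPy.1 hPy.2.1)
  have hT1D2 : T1 ≠ D2 := by
    rintro rfl
    exact hy2 (b1.2.2 y hPy.1 hPy.2.1)
  have hD12 : D1 ≠ D2 := by
    rintro rfl
    exact he (b1.2.2 e1 a1.1 a1.2.1)
  have hwall : ∀ r, w ∈ H.pt r → r = T1 ∨ r = D1 ∨ r = D2 := fun r hr =>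
    bl_cases hwT hwD1 hwD2 hT1D1 hT1D2 hD12 hr
  have hxw : x ≠ w := by
    rintro rfl
    rcases hwall T hxT with rfl | rfl | rfl
    · exact hUT.not_P hPy
    · exact hUT.not_P a1
    · exact hUT.not_P b1
  have hT1Y1 : T1 ≠ Y1 := by
    rintro rfl
    exact q1.1 (hPy.2.2 y1 q1.2.2.1 q1.2.2.2.2.1).symm
  have hT1Y2 : T1 ≠ Y2 := by
    rintro rfl
    exact q2.1 (hPy.2.2 y2 q2.2.2.1 q2.2.2.2.2.1).symm
  have hyall : ∀ r, y ∈ H.pt r → r = T1 ∨ r = Y1 ∨ r = Y2 := fun r hr =>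
    bl_cases hPy.1 q1.2.1 q2.2.1 hT1Y1 hT1Y2 hY12 hr
  have n1 : y1 ≠ e1 := by
    rintro rfl
    exact hR1 (rc_q q1)
  have n2 : y2 ≠ e1 := by
    rintro rfl
    exact hR1 (rc_q q2)
  have n3 : y1 ≠ e2 := by
    rintro rfl
    exact hR1 (rc_trans (rc_q q1) (rc_symm hR2))
  have n4 : y2 ≠ e2 := by
    rintro rfl
    exact hR1 (rc_trans (rc_q q2) (rc_symm hR2))
  have n5 : y1 ≠ y := q1.1.symm
  have n6 : y2 ≠ y := q2.1.symm
  have e1J := a1.2.1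
  have e2J := b1.2.1
  have yJ := hPy.2.1
  have hEx : Ex H J {x, w} {e1, e2, y} {G} {T} s := by
    refine ⟨by grind, by grind, ?_, ?_, ?_, ?_⟩
    · unfold U P Q at *; grind
    · exact hc_s hs (by grind) (by grind) (by grind)
    · unfold U P Q at *; grind
    · unfold U at *; grind
  refine hEx.contra hO ?_
  have c1 : ({x, w} : Finset A).card = 2 := Finset.card_pair hxw
  have c2 : ({e1, e2, y} : Finset A).card = 3 := by
    rw [Finset.card_eq_three]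
    exact ⟨e1, e2, y, he, hy1.symm, hy2.symm, rfl⟩
  simp [c1, c2]

theorem st_W5 : ST_W5 := by
  intro A B _ _ H J w x y e1 e2 T T1 D1 D2 G F1 F2 hO hwJ hwT hwD1 hwD2 hPy hTwo hR1 l1 l2 hx
  have hnt1 := hx.nt1 hO
  have hnt2 := hx.nt2 hO
  have he := hx.ne hO
  have hxJ := hx.nJ
  have hxall : ∀ r, x ∈ H.pt r → r = T ∨ r = D1 ∨ r = F2 := fun r hr => hx.all hr
  have h1all : ∀ r, e1 ∈ H.pt r → r = D1 ∨ r = G ∨ r = F1 := fun r hr => l1.all hr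
  have h2all : ∀ r, e2 ∈ H.pt r → r = D2 ∨ r = G ∨ r = F2 := fun r hr => l2.all hr
  have hTD1 := hx.Tb
  have hTF2 := hx.Tc
  obtain ⟨⟨s, hs⟩, hI⟩ := hO.1
  obtain ⟨hxT, hxD1, hxF2, hDF, hUT, -, -⟩ := hx
  have g1 := l1.bD
  have g2 := l1.FD
  have g3 := l2.bD
  have g4 := l2.FD
  obtain ⟨a1, a2, a3, a4⟩ := l1
  obtain ⟨b1, b2, b3, b4⟩ := l2
  obtain ⟨Y1, Y2, y1, y2, hY12, q1, q2⟩ := hTwo
  have hnty := q1.nt hI
  have hR2 : H.Rc J e1 e2 := rc_q a3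
  have hy1 : y ≠ e1 := by
    rintro rfl
    exact hR1 Relation.ReflTransGen.refl
  have hy2 : y ≠ e2 := by
    rintro rfl
    exact hR1 (rc_symm hR2)
  have hT1D1 : T1 ≠ D1 := by
    rintro rfl
    exact hy1 (a1.2.2 y hPy.1 hPy.2.1)
  have hT1D2 : T1 ≠ D2 := by
    rintro rfl
    exact hy2 (b1.2.2 y hPy.1 hPy.2.1)
  have hD12 : D1 ≠ D2 := by
    rintro rfl
    exact he (b1.2.2 e1 a1.1 a1.2.1)
  have hwall : ∀ r, w ∈ H.pt r → r = T1 ∨ r = D1 ∨ r = D2 := fun r hr =>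
    bl_cases hwT hwD1 hwD2 hT1D1 hT1D2 hD12 hr
  have hxw : x ≠ w := by
    rintro rfl
    rcases hwall T hxT with rfl | rfl | rfl
    · exact hUT.not_P hPy
    · exact hUT.not_P a1
    · exact hUT.not_P b1
  have hT1Y1 : T1 ≠ Y1 := by
    rintro rfl
    exact q1.1 (hPy.2.2 y1 q1.2.2.1 q1.2.2.2.2.1).symm
  have hT1Y2 : T1 ≠ Y2 := by
    rintro rfl
    exact q2.1 (hPy.2.2 y2 q2.2.2.1 q2.2.2.2.2.1).symm
  have hyall : ∀ r, y ∈ H.pt r → r = T1 ∨ r = Y1 ∨ r = Y2 := fun r hr =>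
    bl_cases hPy.1 q1.2.1 q2.2.1 hT1Y1 hT1Y2 hY12 hr
  have n1 : y1 ≠ e1 := by
    rintro rfl
    exact hR1 (rc_q q1)
  have n2 : y2 ≠ e1 := by
    rintro rfl
    exact hR1 (rc_q q2)
  have n3 : y1 ≠ e2 := by
    rintro rfl
    exact hR1 (rc_trans (rc_q q1) (rc_symm hR2))
  have n4 : y2 ≠ e2 := by
    rintro rfl
    exact hR1 (rc_trans (rc_q q2) (rc_symm hR2))
  have n5 : y1 ≠ y := q1.1.symm
  have n6 : y2 ≠ y := q2.1.symm
  have e1J := a1.2.1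
  have e2J := b1.2.1
  have yJ := hPy.2.1
  have hT1F2 : T1 ≠ F2 := by
    rintro rfl
    exact hy2 (b2.2.2 y hPy.1 hPy.2.1)
  have hxe1 : x ≠ e1 := fun h => hxJ (h ▸ e1J)
  have hwe1 : w ≠ e1 := fun h => hwJ (h ▸ e1J)
  have hD1pt : ∀ r, r ∈ H.pt D1 → r = x ∨ r = w ∨ r = e1 := fun r hr =>
    pt_cases hxD1 hwD1 a1.1 hxw hxe1 hwe1 hr
  have hEx : Ex3 H J {x, w} {e2, y} ∅ {T} s D1 := by
    refine ⟨by grind, by grind, ?_, ?_, ?_, ?_, ?_⟩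
    · unfold U P Q at *; grind
    · intro b u v hne hu hv huJ hvJ huY hvY _ hr
      exact hc_s (X := {x, w}) (Y := {e2, y}) hs (by grind) (by grind) (by grind) b u v hne hu hv huJ hvJ huY hvY hr
    · unfold U P Q at *; grind
    · unfold U at *; grind
    · unfold U P Q at *; grind
  refine hEx.contra hO ?_
  have c1 : ({x, w} : Finset A).card = 2 := Finset.card_pair hxw
  have c2 : ({e2, y} : Finset A).card = 2 := Finset.card_pair hy2.symm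
  simp [c1, c2]

end Pool.Agent.Helper71.Inj
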